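import Mathlib
import Pool.Agent.Z894.LX.Stm

set_option autoImplicit false

namespace Pool.Agent.Y484.LX

open Pool.Agent.TH922.KC Pool.Agent.Z894.LX

lemma bo_zero (m : ℕ) : bo 0 m = m := by
  unfold bo
  rw [if_neg (by omega)]
  omega

lemma mem_SH0 {N : ℕ} {H : Finset ℕ} (hH : ∀ b ∈ H, b < N + 1) {m : ℕ} (hm : m ∈ H) :
    m ∈ SH N 0 H :=
  mem_SH.mpr ⟨hH m hm, by rwa [bo_zero]⟩

lemma SH0_card (N : ℕ) (H : Finset ℕ) : (SH N 0 H).card ≤ H.card := by
  apply Finset.card_le_card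
  intro m hm
  have h := (mem_SH.mp hm).2
  rwa [bo_zero] at h

/-- one merging step, with powers -/
theorem merge_holds (h : Pool.Agent.Z894.LX.GRatios) : Pool.Agent.Z894.LX.GMerge := by
  classical
  intro κ Ω _ _ _ _ _ N s p e k0 hp ω hω z yy H hH h0 c hc l hl hD F j0 hj0H hj0 hF hFz hcard
  have hq : 0 < p ^ s := pow_pos hp.pos s
  set o := algebraMap κ Ω ω with ho
  have hoQ : o ^ (p ^ s) = 1 := by rw [ho, ← map_pow, hω.pow_eq_one, map_one]
  have ho0 : o ≠ 0 := by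
    rw [ho, Ne, map_eq_zero]; exact hω.ne_zero hq.ne'
  obtain ⟨lw, hlw⟩ := twist_prod (n := N) (J := 0) (u := N + 1) (by omega)
    (fun b : {b // b ∈ H.erase h0} => b.1) Subtype.val_injective
    (fun b => by
      have h1 := hH b.1 (Finset.mem_of_mem_erase b.2)
      omega) o l yy
  let y' : ℕ → Ω := fun m => o ^ lw (bo 0 m) * yy m
  have hy'0 : y' j0 ≠ 0 := mul_ne_zero (pow_ne_zero _ ho0) hj0
  have hy'Q : ∀ m, y' m ^ (p ^ s) = yy m ^ (p ^ s) := by
    intro m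
    simp only [y']
    rw [mul_pow, ← pow_mul, mul_comm (lw _), pow_mul, hoQ, one_pow, one_mul]
  have hl' : z ^ e = ∑ o1, algebraMap κ Ω (c o1) *
      ∏ m : {m // m ∈ SH N 0 H}, y' m.1 ^ o1.1.1 m := by
    rw [hl]
    refine Finset.sum_congr rfl fun o1 _ => ?_
    rw [← prod_mE o1 y', hlw (mE o1), map_mul, map_pow]
    ring
  have hkey := h κ Ω s p (p ^ s * e) k0 hp ω hω (IH N 0 (p ^ s) (p ^ s * e) H) (SH N 0 H)
    (fun (o1 : IH N 0 (p ^ s) (p ^ s * e) H) m => o1.1.1 m) c hc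
    (fun ν h1 => exists_IH ν h1 (fun x _ h2 => absurd h2 (Nat.not_lt_zero _))) hD F
    (fun m => y' m.1 / y' j0) ⟨j0, mem_SH0 hH hj0H⟩ (div_self hy'0)
    (by
      intro m
      rw [div_pow, hy'Q, hy'Q]
      exact hF m.1)
    (by
      have h1 : ∑ o1, algebraMap κ Ω (c o1) *
          ∏ m : {m // m ∈ SH N 0 H}, (y' m.1 / y' j0) ^ o1.1.1 m
          = (z / yy j0 ^ (p ^ s)) ^ e := by
        rw [div_pow, hl', ← pow_mul, Finset.sum_div]
        refine Finset.sum_congr rfl fun o1 _ => ?_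
        simp only [div_pow]
        rw [Finset.prod_div_distrib, Finset.prod_pow_eq_pow_sum]
        have h2 : ∑ m, o1.1.1 m = p ^ s * e := by
          have h3 := o1.1.2
          rwa [Finsupp.degree_eq_sum] at h3
        rw [h2, pow_mul (y' j0), hy'Q, ← pow_mul, mul_div_assoc]
      rw [h1]
      exact pow_mem hFz e)
    (lt_of_le_of_lt (SH0_card N H) hcard)
  intro m hm
  have h1 := hkey ⟨m, mem_SH0 hH hm⟩
  have h2 : yy m / yy j0 = algebraMap κ Ω ((ω ^ lw (bo 0 m))⁻¹ * ω ^ lw (bo 0 j0)) *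
      (y' m / y' j0) := by
    simp only [y']
    rw [map_mul, map_inv₀, map_pow, map_pow]
    have h2 : o ^ lw (bo 0 m) ≠ 0 := pow_ne_zero _ ho0
    have h3 : o ^ lw (bo 0 j0) ≠ 0 := pow_ne_zero _ ho0
    rw [← ho]
    field_simp
  rw [h2, mul_pow, ← map_pow]
  exact mul_mem (F.algebraMap_mem _) h1

end Pool.Agent.Y484.LX
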